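import Pool.Agent.H87.L.Q169_RC_CVDef
import Pool.Agent.H87.L.W5h83_GT_ConeDef
import Pool.Agent.H7.RC.Bound
import Pool.Agent.H7.L.R782_Bal_Emb

/-!
# The joint class `JC` of finite flag complexes

The members of `JC b n` are finite graphs `G`, thought of as the flag complexes which they span. The number `n` is the
dimension of a contractible manifold on which the right-angled Coxeter group `W G` is expected to act.
-/

set_option autoImplicit false

namespace Pool.Agent.H87.JC

open Pool.Agent.W907.SG Pool.Agent.W907.SM Pool.Agent.TH652.Above Pool.Agent.Q169.RC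
open Pool.Agent.TH652.Join (join)
open Pool.Agent.R781.VS (con NoSq)
open Pool.Agent.R782.Bal (Emb)
open Pool.Agent.W5h83.GT (cone)
open Pool.Agent.H7.RC (Thin)

/-- Two classes of finite graphs: the hereditary class `JC true n` and the larger class `JC false n`. -/
inductive JC : Bool → ℕ → ∀ {V : Type}, SimpleGraph V → Prop
  /-- the members of the class `AM n` of the library, which contains the barycentric subdivisions of the
  triangulated spheres -/
  | am {n : ℕ} {V : Type} (G : SimpleGraph V) : AM n G → JC true n G
  /-- the members of the class `AQ n` of the library -/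
  | aq {n : ℕ} {V : Type} (G : SimpleGraph V) : AQ n G → JC false n G
  /-- complexes with a proper colouring by `k + 1` colours and with vanishing van Kampen obstruction for the
  sphere of dimension `2 k` -/
  | vk {N k : ℕ} (G : SimpleGraph (Fin N)) (κ : Fin N → Fin (k + 1)) : (∀ u v, G.Adj u v → κ u ≠ κ v) →
      ObsVanishes (flagCx G) (2 * k + 1) → JC false (2 * k + 1) G
  /-- complexes of dimension at most `d`, embedded in the sphere of dimension `2 d`, which are properly coloured by
  `d + 1` colours outside a thin set of vertices -/
  | rel {d : ℕ} {V : Type} [Fintype V] [LinearOrder V] (G : SimpleGraph V) (T : Set V) (col : V → Fin (d + 1)) :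
      (∀ σ : Finset V, G.IsClique (σ : Set V) → σ.card ≤ d + 1) →
      (∀ u w, u ∉ T → w ∉ T → G.Adj u w → col u ≠ col w) → Thin G T (d + 1) → Emb d G → JC false (2 * d + 1) G
  /-- homology spheres with at most `(5 n + 2) / 2` vertices -/
  | sphere {n : ℕ} {V : Type} [Fintype V] [LinearOrder V] (G : SimpleGraph V) : HSph n G →
      2 * Fintype.card V ≤ 5 * n + 2 → JC false n G
  /-- few vertices: every clique `T` with `m + 1` elements has more than `|V| - 3 (m + 1)` common neighbours; for
  instance all graphs with at most `3 m + 2` vertices -/
  | few {m : ℕ} {V : Type} [Finite V] (G : SimpleGraph V) :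
      (∀ T : Finset V, G.IsClique (T : Set V) → T.card = m + 1 →
        Nat.card V < 3 * (m + 1) + {u : V | ∀ t ∈ T, G.Adj t u}.ncard) → JC false (2 * m) G
  /-- complexes of dimension less than `m` -/
  | dim {n m : ℕ} {V : Type} [Finite V] (G : SimpleGraph V) : 2 * m ≤ n →
      (∀ T : Finset V, G.IsClique (T : Set V) → T.card ≤ m) → JC false n G
  /-- the hereditary class is contained in the other one -/
  | weak {n : ℕ} {V : Type} (G : SimpleGraph V) : JC true n G → JC false n G
  /-- full subcomplexes -/
  | full {b : Bool} {n : ℕ} {V : Type} (G : SimpleGraph V) (A : Set V) : JC b n G → JC b n (G.induce A)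
  /-- isomorphic graphs -/
  | iso {b : Bool} {n : ℕ} {V U : Type} (G : SimpleGraph V) (H : SimpleGraph U) : Nonempty (G ≃g H) → JC b n G →
      JC b n H
  /-- from `n` to `n + 1` -/
  | succ {b : Bool} {n : ℕ} {V : Type} (G : SimpleGraph V) : JC b n G → JC b (n + 1) G
  /-- from `2 m + 1` to `2 m` -/
  | pred {m : ℕ} {V : Type} (G : SimpleGraph V) : JC false (2 * m + 1) G → JC false (2 * m) G
  /-- joins -/
  | join {b : Bool} {m n : ℕ} {V U : Type} (G : SimpleGraph V) (H : SimpleGraph U) : JC b m G → JC b n H →
      JC b (m + n) (join G H)
  /-- stellar subdivision of an edge -/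
  | sub {n : ℕ} {V : Type} (G : SimpleGraph V) (s t : V) : G.Adj s t → JC true n G → JC true n (esub G s t)
  /-- amalgamation: the complex is the union of two full subcomplexes `A`, `B`, and the unions of these with the cone
  over `A ∩ B` are in the class (for example connected sums of spheres along the links of vertices) -/
  | sum {b : Bool} {n : ℕ} {V : Type} [Finite V] (G : SimpleGraph V) (A B : Set V) : A ∪ B = Set.univ →
      (∀ a ∈ A, a ∉ B → ∀ b ∈ B, b ∉ A → ¬ G.Adj a b) → JC b n (cone (G.induce A) {a | (a : V) ∈ B}) →
      JC b n (cone (G.induce B) {b | (b : V) ∈ A}) → JC b n G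
  /-- gluing along a full subcomplex of the class `n` -/
  | glue {b : Bool} {n : ℕ} {V : Type} [Finite V] (G : SimpleGraph V) (A B : Set V) : A ∪ B = Set.univ →
      (∀ a ∈ A, a ∉ B → ∀ b ∈ B, b ∉ A → ¬ G.Adj a b) → JC b (n + 2) (G.induce A) → JC b (n + 2) (G.induce B) →
      JC b n (G.induce (A ∩ B)) → JC b (n + 2) G
  /-- vertex splitting: the edge `st` is in no induced 4-cycle, the complex obtained by contracting it and the links
  of `s` and `t` are in the class `n + 2`, and the link of the edge is in the class `n` -/
  | split {n : ℕ} {V : Type} [Finite V] (G : SimpleGraph V) (s t : V) : G.Adj s t → NoSq G s t →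
      JC false (n + 2) ((con G s t).induce {t}ᶜ) →
      JC false n (G.induce (G.neighborSet s ∩ G.neighborSet t)) →
      JC false (n + 2) (G.induce (G.neighborSet s)) → JC false (n + 2) (G.induce (G.neighborSet t)) →
      JC false (n + 2) G
  /-- deleting an edge whose link is in the class `n` -/
  | del {n : ℕ} {V : Type} [Finite V] (G : SimpleGraph V) (s t : V) : G.Adj s t → JC false (n + 2) G →
      JC false n (G.induce (G.neighborSet s ∩ G.neighborSet t)) → JC false (n + 2) (G.deleteEdges {s(s, t)})
  /-- adding vertices whose links are in the class `n` -/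
  | vert {n : ℕ} {V : Type} [Finite V] (G : SimpleGraph V) (B : Set V) : JC false (n + 2) (G.induce B) →
      (∀ v, v ∉ B → JC false n (G.induce (G.neighborSet v))) → JC false (n + 2) G
  /-- even length: adding vertices whose links are in the class `2 m + 1` -/
  | even {m : ℕ} {V : Type} [Finite V] (G : SimpleGraph V) (B : Set V) : JC false (2 * m + 2) (G.induce B) →
      (∀ v, v ∉ B → JC false (2 * m + 1) (G.induce (G.neighborSet v))) → JC false (2 * m + 2) G
  /-- heredity: a complex in the class `n + 1` with vertex links in the hereditary class `n` -/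
  | her {n : ℕ} {V : Type} (G : SimpleGraph V) : JC false (n + 1) G →
      (∀ v, JC true n (G.induce (G.neighborSet v))) → JC true (n + 1) G
  /-- flat complexes: real homology spheres in the hereditary class `2 m + 2` the groups of which have Euler
  characteristic zero belong to the class `2 m + 1` -/
  | flat {m : ℕ} {V : Type} [Fintype V] [LinearOrder V] (G : SimpleGraph V) : JC true (2 * m + 2) G →
      HSph (2 * m + 2) G → chiW G = 0 → JC false (2 * m + 1) G

end Pool.Agent.H87.JC
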