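import Pool.Agent.H87.JC.Def
import Pool.Agent.H87.L.Q169_RC_CV
import Pool.Agent.H87.L.W5h83_GT_Sum
import Pool.Agent.H87.L.W5h83_FS_Final
import Pool.Agent.H87.L.Q24_SG_Class
import Pool.Agent.H7.L.R781_VS_QSplit
import Pool.Agent.H7.RC.Main

/-!
# Vanishing above the middle for the classes `JC`
-/

set_option autoImplicit false
set_option linter.unusedSectionVars false

namespace Pool.Agent.H87.JC

open Pool.Agent.W907.SG Pool.Agent.W907.SM Pool.Agent.TH652.Above Pool.Agent.Q169.RC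
open Pool.Agent.TH652.Join (join)
open Pool.Agent.R781.VS (con NoSq Q_split)
open Pool.Agent.R782.Bal (Emb Emb.induce)
open Pool.Agent.W5h83.GT (cone lv_sum someEmb coneEmb indEmb Q_sum)
open Pool.Agent.H7.RC (Thin)
open Pool.Agent.W907.SM.Clo (Lk mem_Lk)

/-- thin sets of full subcomplexes -/
theorem thin_induce {V : Type} [Fintype V] [LinearOrder V] {G : SimpleGraph V} {T : Set V} {m : ℕ}
    (h : Thin G T m) (A : Set V) [Fintype ↥A] [LinearOrder ↥A] :
    Thin (G.induce A) {a : ↥A | (a : V) ∈ T} m := by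
  intro F hF hcl
  have hinj : Function.Injective (fun σ : Finset ↥A => σ.map (Function.Embedding.subtype (· ∈ A))) :=
    Finset.map_injective _
  obtain ⟨σ', hσ', v, hv, hcase⟩ := h (F.image fun σ => σ.map (Function.Embedding.subtype (· ∈ A)))
    (hF.image _) (by
      intro σ' hσ'
      obtain ⟨σ, hσ, rfl⟩ := Finset.mem_image.1 hσ'
      obtain ⟨h1, h2, t, ht, htT⟩ := hcl σ hσ
      refine ⟨?_, by rw [Finset.card_map]; exact h2, t.1, Finset.mem_map.2 ⟨t, ht, rfl⟩, htT⟩
      intro a ha b hb hab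
      obtain ⟨x, hx, rfl⟩ := Finset.mem_map.1 (Finset.mem_coe.1 ha)
      obtain ⟨y, hy, rfl⟩ := Finset.mem_map.1 (Finset.mem_coe.1 hb)
      exact h1 hx hy (fun e => hab (by rw [e])))
  obtain ⟨σ, hσ, rfl⟩ := Finset.mem_image.1 hσ'
  obtain ⟨w, hw, rfl⟩ := Finset.mem_map.1 hv
  have key : ((F.image fun σ => σ.map (Function.Embedding.subtype (· ∈ A))).filter
      (fun τ => (σ.map (Function.Embedding.subtype (· ∈ A))).erase
        (Function.Embedding.subtype (· ∈ A) w) ⊆ τ)).card =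
      (F.filter (fun τ => σ.erase w ⊆ τ)).card := by
    rw [Finset.filter_image, Finset.card_image_of_injective _ hinj]
    congr 1
    ext τ
    simp only [Finset.mem_filter, and_congr_right_iff]
    intro _
    rw [← Finset.map_erase, Finset.map_subset_map]
  refine ⟨σ, hσ, w, hw, ?_⟩
  rcases hcase with h1 | ⟨h1, h2⟩
  · left
    refine (congrArg Finset.card (Finset.ext fun τ => ?_)).trans (key.symm.trans h1)
    simp only [Finset.mem_filter, Finset.mem_erase, Finset.subset_iff]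
  · right
    refine ⟨h1, (congrArg Finset.card (Finset.ext fun τ => ?_)).trans (key.symm.trans h2)⟩
    simp only [Finset.mem_filter, Finset.mem_erase, Finset.subset_iff]

/-- relative colourings -/
theorem Q_rel {d : ℕ} {V : Type} [Fintype V] [LinearOrder V] (G : SimpleGraph V) (T : Set V) (col : V → Fin (d + 1))
    (hdim : ∀ σ : Finset V, G.IsClique (σ : Set V) → σ.card ≤ d + 1)
    (hcol : ∀ u w, u ∉ T → w ∉ T → G.Adj u w → col u ≠ col w) (hT : Thin G T (d + 1)) (hE : Emb d G) :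
    Q (2 * d + 1) G := by
  refine ⟨inferInstance, fun A i hi => ?_⟩
  intro _ _
  refine Pool.Agent.H7.RC.rel {a : ↥A | (a : V) ∈ T} (fun a => col a.1) ?_
    (fun u w hu hw huw => hcol u.1 w.1 hu hw huw) (thin_induce hT A) (hE.induce A) i (by omega)
  intro σ hσ
  rw [← Finset.card_map (Function.Embedding.subtype (· ∈ A))]
  refine hdim _ ?_
  intro a ha b hb hab
  obtain ⟨x, hx, rfl⟩ := Finset.mem_map.1 (Finset.mem_coe.1 ha)
  obtain ⟨y, hy, rfl⟩ := Finset.mem_map.1 (Finset.mem_coe.1 hb)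
  exact hσ hx hy (fun e => hab (by rw [e]))

/-- homology spheres with few vertices -/
theorem Q_sphere {n : ℕ} {V : Type} [Fintype V] [LinearOrder V] (G : SimpleGraph V) (h : HSph n G)
    (hc : 2 * Fintype.card V ≤ 5 * n + 2) : Q n G := by
  classical
  refine ⟨inferInstance, fun A i hi => ?_⟩
  have _ : Fintype ↥A := Fintype.ofFinite _
  exact Pool.Agent.W907.SM.lv_of (Pool.Agent.W5h83.FS.above_few h A i hi (Pool.Agent.W5h83.FS.few_arith hc hi))

/-- vanishing for embedded graphs in a link -/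
theorem P_at {n : ℕ} {U W : Type} {K : SimpleGraph W} {H : SimpleGraph U} (h : P n K) (φ : H ↪g K)
    (T : Finset W) (hT : K.IsClique (T : Set W)) (hl : ∀ u, ∀ t ∈ T, K.Adj t (φ u)) (i : ℕ)
    (hi : n < 2 * i + T.card) : LV H i := by
  refine (lv_univ H i).1 ((lv_img (G := K) φ Set.univ (fun _ _ _ _ e => φ.injective e)
    (fun _ _ _ _ => φ.map_adj_iff) i).2 (h.2 T hT _ ?_ i hi))
  rintro _ ⟨u, _, rfl⟩ t ht
  exact hl u t ht

/-- the copy of a set of vertices in the cone -/
noncomputable def cpy {V : Type} (A : Set V) (T : Finset V) : Finset (Option ↥A) := by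
  classical exact (T.subtype (· ∈ A)).map Function.Embedding.some

theorem mem_cpy {V : Type} {A : Set V} {T : Finset V} {x : Option ↥A} :
    x ∈ cpy A T ↔ ∃ a : ↥A, (a : V) ∈ T ∧ some a = x := by
  classical
  unfold cpy
  rw [Finset.mem_map]
  constructor
  · rintro ⟨a, ha, rfl⟩
    exact ⟨a, Finset.mem_subtype.1 ha, rfl⟩
  · rintro ⟨a, ha, rfl⟩
    exact ⟨a, Finset.mem_subtype.2 ha, rfl⟩

theorem card_cpy {V : Type} {A : Set V} {T : Finset V} (h : ∀ t ∈ T, t ∈ A) : (cpy A T).card = T.card := by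
  classical
  unfold cpy
  rw [Finset.card_map, Finset.card_subtype, Finset.filter_true_of_mem h]

theorem clique_cpy {V : Type} {G : SimpleGraph V} {A : Set V} {T : Finset V} (S : Set ↥A)
    (hT : G.IsClique (T : Set V)) : (cone (G.induce A) S).IsClique (cpy A T : Set (Option ↥A)) := by
  intro x hx y hy hxy
  obtain ⟨a, ha, rfl⟩ := mem_cpy.1 (Finset.mem_coe.1 hx)
  obtain ⟨b, hb, rfl⟩ := mem_cpy.1 (Finset.mem_coe.1 hy)
  exact hT ha hb (fun e => hxy (by rw [Subtype.ext e]))

/-- the case of a clique which is not contained in `B` -/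
theorem P_sum_side {n : ℕ} {V : Type} {G : SimpleGraph V} {A B : Set V} (hAB : A ∪ B = Set.univ)
    (hno : ∀ a ∈ A, a ∉ B → ∀ b ∈ B, b ∉ A → ¬ G.Adj a b) {S : Set ↥A}
    (h1 : P n (cone (G.induce A) S)) (T : Finset V) (hT : G.IsClique (T : Set V)) (D : Set V)
    (hD : D ⊆ Lk G T) (i : ℕ) (hi : n < 2 * i + T.card) (t : V) (ht : t ∈ T) (htB : t ∉ B) :
    LV (G.induce D) i := by
  have hcov : ∀ x : V, x ∉ A → x ∈ B := fun x hx => by
    have : x ∈ A ∪ B := by rw [hAB]; trivial
    exact this.resolve_left hx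
  have htA : t ∈ A := by
    by_contra h
    exact htB (hcov t h)
  have hadj : ∀ x, G.Adj t x → x ∈ A := by
    intro x hx
    by_contra h
    exact hno t htA htB x (hcov x h) h hx
  have hTA : ∀ s ∈ T, s ∈ A := by
    intro s hs
    by_cases e : s = t
    · rw [e]; exact htA
    · exact hadj s (hT ht hs (Ne.symm e))
  have hDA : ∀ x ∈ D, x ∈ A := fun x hx => hadj x (hD hx t ht)
  let φ : G.induce D ↪g cone (G.induce A) S :=
    { toFun := fun x => some ⟨x.1, hDA x.1 x.2⟩
      inj' := fun x y e => Subtype.ext (congrArg (fun z : ↥A => (z : V)) (Option.some_injective _ e))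
      map_rel_iff' := Iff.rfl }
  refine P_at h1 φ (cpy A T) (clique_cpy S hT) ?_ i (by rw [card_cpy hTA]; exact hi)
  intro u s hs
  obtain ⟨a, ha, rfl⟩ := mem_cpy.1 hs
  exact hD u.2 a.1 ha

/-- amalgamation in the hereditary class -/
theorem P_sum {n : ℕ} {V : Type} [Finite V] (G : SimpleGraph V) (A B : Set V) (hAB : A ∪ B = Set.univ)
    (hno : ∀ a ∈ A, a ∉ B → ∀ b ∈ B, b ∉ A → ¬ G.Adj a b)
    (h1 : P n (cone (G.induce A) {a | (a : V) ∈ B})) (h2 : P n (cone (G.induce B) {b | (b : V) ∈ A})) : P n G := by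
  classical
  refine ⟨inferInstance, fun T hT D hD i hi => ?_⟩
  by_cases hB : ∃ t ∈ T, t ∉ B
  · obtain ⟨t, ht, htB⟩ := hB
    exact P_sum_side hAB hno h1 T hT D hD i hi t ht htB
  by_cases hA : ∃ t ∈ T, t ∉ A
  · obtain ⟨t, ht, htA⟩ := hA
    exact P_sum_side (by rw [Set.union_comm]; exact hAB)
      (fun b hb hbA a ha haB hab => hno a ha haB b hb hbA hab.symm) h2 T hT D hD i hi t ht htA
  have hTA : ∀ t ∈ T, t ∈ A := fun t ht => by
    by_contra h
    exact hA ⟨t, ht, h⟩
  have hTB : ∀ t ∈ T, t ∈ B := fun t ht => by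
    by_contra h
    exact hB ⟨t, ht, h⟩
  have side : ∀ (A B : Set V), (∀ t ∈ T, t ∈ A) → (∀ t ∈ T, t ∈ B) →
      P n (cone (G.induce A) {a | (a : V) ∈ B}) →
      LV ((G.induce D).induce {x : ↥D | (x : V) ∈ A}) i ∧
        LV (cone ((G.induce D).induce {x : ↥D | (x : V) ∈ A}) {a | (a : ↥D) ∈ {x : ↥D | (x : V) ∈ B}}) i := by
    intro A B hTA hTB h1
    constructor
    · refine P_at h1 (someEmb (indEmb G D A) _) (cpy A T) (clique_cpy _ hT) ?_ i
        (by rw [card_cpy hTA]; exact hi)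
      intro u s hs
      obtain ⟨a, ha, rfl⟩ := mem_cpy.1 hs
      exact hD u.1.2 a.1 ha
    · refine P_at h1 (coneEmb (indEmb G D A) {a | (a : V) ∈ B} {a | (a : ↥D) ∈ {x : ↥D | (x : V) ∈ B}} fun _ => Iff.rfl)
        (cpy A T) (clique_cpy _ hT) ?_ i (by rw [card_cpy hTA]; exact hi)
      intro u s hs
      obtain ⟨a, ha, rfl⟩ := mem_cpy.1 hs
      cases u with
      | none => exact hTB a.1 ha
      | some u => exact hD u.1.2 a.1 ha
  obtain ⟨g1, g3⟩ := side A B hTA hTB h1
  obtain ⟨g2, g4⟩ := side B A hTB hTA h2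
  refine lv_sum (G.induce D) {x : ↥D | (x : V) ∈ A} {x : ↥D | (x : V) ∈ B} ?_ ?_ i g1 g2 g3 g4
  · ext x
    have : (x : V) ∈ A ∪ B := by rw [hAB]; trivial
    simpa using this
  · exact fun a ha haB b hb hbA => hno a ha haB b hb hbA

theorem PQ_of_JC {b : Bool} {n : ℕ} {V : Type} {G : SimpleGraph V} (h : JC b n G) : PQ b n G := by
  induction h with
  | am G h => exact P_of_AM h
  | aq G h => exact Q_of_AQ h
  | @vk N k G κ hκ hobs =>
    have hV : Pool.Agent.Y131.KS.VK2 (flagCx G) (2 * k + 1 + 1) := by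
      intro Z h1 h2 h3
      exact hobs Z h1 h2 (fun ρ τ a b => h3 ρ τ a (by omega))
    refine vk_Q G k κ hκ (flagCx G) hV (Function.Embedding.refl _) (fun T hT => ?_)
    rw [Finset.map_refl]
    unfold flagCx
    classical
    simpa using hT
  | rel G T col hdim hcol hT hE => exact Q_rel G T col hdim hcol hT hE
  | sphere G h hc => exact Q_sphere G h hc
  | few G h => exact Pool.Agent.Q24.SG.Q_few G h
  | dim G hm hB => exact Q_dim G hm hB
  | weak G _ ih => exact Q_of_P G ih
  | @full b n V G A _ ih =>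
    cases b
    · exact Q_emb G _ (SimpleGraph.Embedding.induce A) ih
    · exact P_full G A ih
  | @iso b n V U G H e _ ih =>
    cases b
    · exact Q_emb G H e.some.symm.toEmbedding ih
    · exact P_iso G H e.some ih
  | @succ b n V G _ ih =>
    cases b
    · exact ⟨ih.1, fun A i hi => ih.2 A i (by omega)⟩
    · exact P_succ G ih
  | pred G _ ih => exact ⟨ih.1, fun A i hi => ih.2 A i (by omega)⟩
  | @join b m n V U G H _ _ ih1 ih2 =>
    cases b
    · exact Q_join G H ih1 ih2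
    · exact P_join G H ih1 ih2
  | sub G s t hst _ ih => exact P_sub G s t hst ih
  | @sum b n V _ G A B hAB hno _ _ ih1 ih2 =>
    cases b
    · exact Q_sum G A B hAB hno ih1 ih2
    · exact P_sum G A B hAB hno ih1 ih2
  | @glue b n V _ G A B hAB hno _ _ _ ih1 ih2 ih3 =>
    cases b
    · exact Q_glue G A B hAB hno ih1 ih2 ih3
    · exact P_glue G A B hAB hno ih1 ih2 ih3
  | split G s t hst hsq _ _ _ _ ih1 ih2 ih3 ih4 => exact Q_split G s t hst hsq ih1 ih2 ih3 ih4
  | del G s t hst _ _ ih1 ih2 => exact Q_del G s t hst ih1 ih2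
  | vert G B _ _ ih1 ih2 =>
    exact Q_ext G B ih1 fun v hv A hA i hi =>
      lv_of_induce hA ((ih2 v hv).2 {x | x.1 ∈ A} i (by omega))
  | even G B _ _ ih1 ih2 =>
    exact Q_ext G B ih1 fun v hv A hA i hi =>
      lv_of_induce hA ((ih2 v hv).2 {x | x.1 ∈ A} i (by omega))
  | her G _ _ ih1 ih2 => exact P_her G ih1 ih2
  | flat G _ hS hχ ih => exact Q_flat G ih hS hχ

theorem Q_of_JC {b : Bool} {n : ℕ} {V : Type} {G : SimpleGraph V} (h : JC b n G) : Q n G := by
  cases b
  · exact PQ_of_JC h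
  · exact Q_of_P G (PQ_of_JC h)

end Pool.Agent.H87.JC
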